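import Pool.Agent.H75.ERG.Targets

/-!
# Invariant functions, row IE: integrated estimates
-/

set_option autoImplicit false

namespace Pool.Agent.H64.EG.IE

open MeasureTheory Set Metric Filter Topology Pool.Agent.H93.BL
open Pool.Agent.H93.EN (av md rf chi gchi Bd Ml Nl Inv Agr sg VV Chart LS Phi)
open Pool.Agent.H93.EG (InvG Sm gN hN nrm)
open Pool.Agent.H75.ERG

theorem norm_e (θ : ℝ) : ‖Complex.exp ((θ : ℂ) * Complex.I)‖ = 1 := Complex.norm_exp_ofReal_mul_I θ

theorem two_pi_nn : (0 : ℝ) ≤ 2 * Real.pi := by positivity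

theorem meas_e : Measurable fun θ : ℝ => Complex.exp ((θ : ℂ) * Complex.I) := by fun_prop

/-- bounded measurable functions of the angle are integrable -/
theorem int_e {g : ℂ → ℝ} (hg : Measurable g) {C : ℝ} (hC : ∀ w, |g w| ≤ C) :
    Integrable (fun θ : ℝ => g (Complex.exp ((θ : ℂ) * Complex.I)))
      (volume.restrict (Ioc 0 (2 * Real.pi))) := by
  refine Integrable.of_bound (hg.comp meas_e).aestronglyMeasurable C (ae_of_all _ fun θ => ?_)
  rw [Real.norm_eq_abs]
  exact hC _

theorem av_eq (g : ℂ → ℝ) : av g = (2 * Real.pi)⁻¹ * ∫ θ in Ioc 0 (2 * Real.pi),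
    g (Complex.exp ((θ : ℂ) * Complex.I)) := by
  unfold av
  rw [intervalIntegral.integral_of_le two_pi_nn]

theorem av_nonneg {g : ℂ → ℝ} (h : ∀ w, ‖w‖ = 1 → 0 ≤ g w) : 0 ≤ av g := by
  rw [av_eq]
  exact mul_nonneg (inv_nonneg.2 two_pi_nn) (integral_nonneg fun θ => h _ (norm_e θ))

/-- monotonicity of the mean; the smaller function need not be measurable -/
theorem av_mono {f g : ℂ → ℝ} (hg : Measurable g) {C : ℝ} (hC : ∀ w, |g w| ≤ C)
    (h0 : ∀ w, ‖w‖ = 1 → 0 ≤ f w) (h : ∀ w, ‖w‖ = 1 → f w ≤ g w) : av f ≤ av g := by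
  rw [av_eq, av_eq]
  refine mul_le_mul_of_nonneg_left ?_ (inv_nonneg.2 two_pi_nn)
  exact integral_mono_of_nonneg (ae_of_all _ fun θ => h0 _ (norm_e θ)) (int_e hg hC)
    (ae_of_all _ fun θ => h _ (norm_e θ))

theorem av_lin {f g : ℂ → ℝ} (hf : Measurable f) (hg : Measurable g) {C D : ℝ}
    (hC : ∀ w, |f w| ≤ C) (hD : ∀ w, |g w| ≤ D) (a b : ℝ) :
    av (fun w => a * f w + b * g w) = a * av f + b * av g := by
  rw [av_eq, av_eq, av_eq, integral_add ((int_e hf hC).const_mul a) ((int_e hg hD).const_mul b),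
    integral_const_mul, integral_const_mul]
  ring

theorem av_abs {g : ℂ → ℝ} {C : ℝ} (hC : ∀ w, |g w| ≤ C)
    (h0 : ∀ w, 0 ≤ g w) : |av g| ≤ C := by
  have h1 : av g ≤ av (fun _ => C) := av_mono measurable_const (C := |C|) (fun _ => le_rfl)
    (fun w _ => h0 w) fun w _ => (le_abs_self _).trans (hC w)
  have h2 : av (fun _ => C) = C := by
    unfold av
    rw [intervalIntegral.integral_const, smul_eq_mul, sub_zero, ← mul_assoc,
      inv_mul_cancel₀ (by positivity), one_mul]
  rw [abs_of_nonneg (av_nonneg fun w _ => h0 w)]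
  exact h1.trans h2.le

/-- the mean of a jointly measurable function is measurable -/
theorem av_meas {H : ℂ → ℂ → ℝ} (hH : Measurable (Function.uncurry H)) :
    Measurable fun x => av (H x) := by
  have h1 : StronglyMeasurable (Function.uncurry fun (x : ℂ) (θ : ℝ) =>
      H x (Complex.exp ((θ : ℂ) * Complex.I))) := by
    have h2 : Measurable fun p : ℂ × ℝ => (p.1, Complex.exp ((p.2 : ℂ) * Complex.I)) :=
      measurable_fst.prodMk (meas_e.comp measurable_snd)
    exact (hH.comp h2).stronglyMeasurable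
  have h3 := h1.integral_prod_right (ν := (volume.restrict (Ioc 0 (2 * Real.pi))))
  have h4 : (fun x => av (H x)) = fun x => (2 * Real.pi)⁻¹ * ∫ θ in Ioc 0 (2 * Real.pi),
      H x (Complex.exp ((θ : ℂ) * Complex.I)) := funext fun x => av_eq (H x)
  rw [h4]
  exact h3.measurable.const_mul _

section table

variable {ι : Type} (P : Polygon ι)

theorem meas_sec {H : ℂ → ℂ → ℝ} (hH : Measurable (Function.uncurry H)) (x : ℂ) :
    Measurable (H x) := hH.comp measurable_prodMk_left

theorem int_av {H : ℂ → ℂ → ℝ} (hH : Measurable (Function.uncurry H)) {C : ℝ}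
    (hC : ∀ x w, |H x w| ≤ C) (h0 : ∀ x w, 0 ≤ H x w) :
    IntegrableOn (fun x => av (H x)) P.Ω := by
  refine Measure.integrableOn_of_bounded (M := C) P.isBounded.measure_lt_top.ne
    (av_meas hH).aestronglyMeasurable (ae_of_all _ fun x => ?_)
  rw [Real.norm_eq_abs]
  exact av_abs (hC x) (h0 x)

/-- monotonicity of the integral; the smaller function need not be measurable -/
theorem int_mono {f H : ℂ → ℂ → ℝ} (hH : Measurable (Function.uncurry H)) {C : ℝ}
    (hC : ∀ x w, |H x w| ≤ C) (h0 : ∀ x w, 0 ≤ H x w)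
    (hf0 : ∀ x ∈ P.Ω, ∀ w, ‖w‖ = 1 → 0 ≤ f x w)
    (hf : ∀ x ∈ P.Ω, ∀ w, ‖w‖ = 1 → f x w ≤ H x w) :
    ∫ x in P.Ω, av (f x) ≤ ∫ x in P.Ω, av (H x) := by
  have hm : MeasurableSet P.Ω := P.isOpen.measurableSet
  refine integral_mono_of_nonneg ?_ (int_av P hH hC h0) ?_
  · filter_upwards [ae_restrict_mem hm] with x hx
    exact av_nonneg (hf0 x hx)
  · filter_upwards [ae_restrict_mem hm] with x hx
    exact av_mono (meas_sec hH x) (hC x) (hf0 x hx) (hf x hx)

theorem int_lin {f g : ℂ → ℂ → ℝ} (hf : Measurable (Function.uncurry f))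
    (hg : Measurable (Function.uncurry g)) {C D : ℝ} (hC : ∀ x w, |f x w| ≤ C)
    (hD : ∀ x w, |g x w| ≤ D) (hf0 : ∀ x w, 0 ≤ f x w) (hg0 : ∀ x w, 0 ≤ g x w) (a b : ℝ) :
    ∫ x in P.Ω, av (fun w => a * f x w + b * g x w) =
      a * (∫ x in P.Ω, av (f x)) + b * ∫ x in P.Ω, av (g x) := by
  have h1 : ∀ x, av (fun w => a * f x w + b * g x w) = a * av (f x) + b * av (g x) :=
    fun x => av_lin (meas_sec hf x) (meas_sec hg x) (hC x) (hD x) a b
  simp only [h1]
  rw [integral_add ((int_av P hf hC hf0).const_mul a) ((int_av P hg hD hg0).const_mul b),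
    integral_const_mul, integral_const_mul]

end table

open Classical in
/-- the indicator function of the small costs -/
theorem meas_ind {m : ℂ → ℂ → ℝ} (hm : Measurable (Function.uncurry m)) (c : ℝ) :
    Measurable (Function.uncurry fun x w => if m x w < c then (1 : ℝ) else 0) :=
  Measurable.ite (measurableSet_lt hm measurable_const) measurable_const measurable_const

end Pool.Agent.H64.EG.IE

namespace Pool.Agent.H64.EG

open MeasureTheory Set Metric Filter Topology Pool.Agent.H93.BL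
open Pool.Agent.H93.EN (av md rf chi gchi Bd Ml Nl Inv Agr sg VV Chart LS Phi)
open Pool.Agent.H93.EG (InvG Sm gN hN nrm)
open Pool.Agent.H75.ERG
open IE

open Classical in
theorem ie (hGB : T_GB) (hHB : T_HB) (hAF : T_AF) (hOMM : T_OMM) (hPSI : T_PSI) : T_IE := by
  obtain ⟨C₁, hC₁, hHB⟩ := hHB
  obtain ⟨C₂, hC₂, hAF⟩ := hAF
  refine ⟨max (8 * C₁ ^ 2) C₂, lt_max_of_lt_right hC₂, ?_⟩
  intro ι P κ Λ a L δ K F m hA
  have ha := hA.a0
  have hL := hA.L0
  have hΛ := hA.Λ0
  have hδ := hA.δ0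
  have hK : (0 : ℝ) < K := by exact_mod_cast hA.K1
  obtain ⟨hom, homb⟩ := hOMM ι P F hA.inv δ hδ
  obtain ⟨-, -, -, -, hDm, hDb, -⟩ := hPSI K hA.K1
  -- the square of `DK`
  have hDD : Measurable (Function.uncurry fun x w => DK K (m x w) ^ 2) :=
    (hDm.comp hA.cost.meas).pow_const 2
  have hDDb : ∀ x w : ℂ, |DK K (m x w) ^ 2| ≤ 16 := by
    intro x w
    have h1 := hDb (m x w)
    rw [abs_of_nonneg (sq_nonneg _)]
    nlinarith [h1.1, h1.2]
  have hDD0 : ∀ x w : ℂ, 0 ≤ DK K (m x w) ^ 2 := fun x w => sq_nonneg _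
  have homb' : ∀ x w : ℂ, |om P F δ x w| ≤ 4 := fun x w => by
    rw [abs_of_nonneg (homb x w).1]
    exact (homb x w).2
  have hint := hA.cost.int K hA.K1
  have hI0 : 0 ≤ ∫ x in P.Ω, av (om P F δ x) :=
    integral_nonneg fun x => av_nonneg fun w _ => (homb x w).1
  refine ⟨?_, ?_, ?_⟩
  · -- derivative along the direction
    have h1 : nrm P.Ω (gN fun x => Nl (XG P κ a (cutG K F m) x) δ x) ≤
        ∫ x in P.Ω, av (fun w => (1 / L ^ 2) * DK K (m x w) ^ 2 + 0 * DK K (m x w) ^ 2) := by
      unfold nrm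
      refine int_mono P (C := 16 / L ^ 2)
        (H := fun x w => (1 / L ^ 2) * DK K (m x w) ^ 2 + 0 * DK K (m x w) ^ 2) ?_ ?_ ?_ ?_ ?_
      · exact (hDD.const_mul _).add (hDD.const_mul _)
      · intro x w
        have h2 := hDDb x w
        rw [abs_of_nonneg (hDD0 x w)] at h2
        have h3 : 0 ≤ 1 / L ^ 2 * DK K (m x w) ^ 2 + 0 * DK K (m x w) ^ 2 := by positivity
        rw [abs_of_nonneg h3, zero_mul, add_zero, one_div, inv_mul_eq_div]
        exact div_le_div_of_nonneg_right h2 (by positivity)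
      · intro x w
        positivity
      · intro x _ w _
        positivity
      · intro x hx w hw
        have h2 := hGB ι P κ Λ a L δ K F m hA x hx w hw
        have h3 := hDb (m x w)
        have h4 : gN (fun x => Nl (XG P κ a (cutG K F m) x) δ x) x w ^ 2 ≤
            (DK K (m x w) / L) ^ 2 := by
          rw [← sq_abs]
          exact pow_le_pow_left₀ (abs_nonneg _) h2 2
        refine h4.trans (le_of_eq ?_)
        rw [div_pow]
        ring
    refine h1.trans ?_
    rw [int_lin P hDD hDD hDDb hDDb hDD0 hDD0, zero_mul, add_zero]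
    calc 1 / L ^ 2 * (∫ x in P.Ω, av fun w => DK K (m x w) ^ 2)
        ≤ 1 / L ^ 2 * (Λ * a * L / K) := mul_le_mul_of_nonneg_left hint (by positivity)
      _ = Λ * a / (K * L) := by
        field_simp
  · -- the whole gradient
    have h1 : nrm P.Ω (hN fun x => Nl (XG P κ a (cutG K F m) x) δ x) ≤
        ∫ x in P.Ω, av (fun w => (8 * C₁ ^ 2 / δ ^ 2) * om P F δ x w +
          (2 * C₁ ^ 2 * Λ ^ 2 / a ^ 2) * DK K (m x w) ^ 2) := by
      unfold nrm
      refine int_mono P (C := 8 * C₁ ^ 2 / δ ^ 2 * 4 + 2 * C₁ ^ 2 * Λ ^ 2 / a ^ 2 * 16)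
        (H := fun x w => (8 * C₁ ^ 2 / δ ^ 2) * om P F δ x w +
          (2 * C₁ ^ 2 * Λ ^ 2 / a ^ 2) * DK K (m x w) ^ 2) ?_ ?_ ?_ ?_ ?_
      · exact (hom.const_mul _).add (hDD.const_mul _)
      · intro x w
        have h2 := hDDb x w
        rw [abs_of_nonneg (hDD0 x w)] at h2
        have h3 := (homb x w).1
        rw [abs_of_nonneg (by positivity)]
        exact add_le_add (mul_le_mul_of_nonneg_left (homb x w).2 (by positivity))
          (mul_le_mul_of_nonneg_left h2 (by positivity))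
      · intro x w
        have h3 := (homb x w).1
        positivity
      · intro x _ w _
        exact sq_nonneg _
      · intro x hx w hw
        have h2 := hHB ι P κ Λ a L δ K F m hA x hx w hw
        have h3 := hDb (m x w)
        have h4 := homb x w
        have h5 : |hN (fun x => Nl (XG P κ a (cutG K F m) x) δ x) x w| ≤
            C₁ / δ * om P F δ x w + C₁ * Λ / a * DK K (m x w) := by
          refine le_trans ?_ h2
          unfold hN
          refine (Complex.abs_im_le_norm _).trans ?_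
          rw [norm_mul, Complex.norm_conj, hw, mul_one]
        have h6 : hN (fun x => Nl (XG P κ a (cutG K F m) x) δ x) x w ^ 2 ≤
            (C₁ / δ * om P F δ x w + C₁ * Λ / a * DK K (m x w)) ^ 2 := by
          rw [← sq_abs]
          exact pow_le_pow_left₀ (abs_nonneg _) h5 2
        refine h6.trans ?_
        have h7 : (C₁ / δ * om P F δ x w + C₁ * Λ / a * DK K (m x w)) ^ 2 ≤
            2 * (C₁ / δ * om P F δ x w) ^ 2 + 2 * (C₁ * Λ / a * DK K (m x w)) ^ 2 := by
          nlinarith [sq_nonneg (C₁ / δ * om P F δ x w - C₁ * Λ / a * DK K (m x w))]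
        refine h7.trans (add_le_add ?_ (le_of_eq ?_))
        · have h8 : om P F δ x w ^ 2 ≤ 4 * om P F δ x w := by nlinarith [h4.1, h4.2]
          calc 2 * (C₁ / δ * om P F δ x w) ^ 2 = 2 * C₁ ^ 2 / δ ^ 2 * om P F δ x w ^ 2 := by
                rw [mul_pow, div_pow]
                ring
            _ ≤ 2 * C₁ ^ 2 / δ ^ 2 * (4 * om P F δ x w) :=
                mul_le_mul_of_nonneg_left h8 (by positivity)
            _ = 8 * C₁ ^ 2 / δ ^ 2 * om P F δ x w := by ring
        · rw [mul_pow, div_pow, mul_pow]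
          ring
    refine h1.trans ?_
    rw [int_lin P hom hDD homb' hDDb (fun x w => (homb x w).1) hDD0]
    refine add_le_add ?_ ?_
    · refine mul_le_mul_of_nonneg_right ?_ hI0
      exact div_le_div_of_nonneg_right (le_max_left _ _) (by positivity)
    · calc 2 * C₁ ^ 2 * Λ ^ 2 / a ^ 2 * (∫ x in P.Ω, av fun w => DK K (m x w) ^ 2)
          ≤ 2 * C₁ ^ 2 * Λ ^ 2 / a ^ 2 * (Λ * a * L / K) :=
            mul_le_mul_of_nonneg_left hint (by positivity)
        _ = 2 * C₁ ^ 2 * (Λ ^ 3 * L / (K * a)) := by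
            field_simp
        _ ≤ max (8 * C₁ ^ 2) C₂ * (Λ ^ 3 * L / (K * a)) := by
            refine mul_le_mul_of_nonneg_right ?_ (by positivity)
            refine le_trans ?_ (le_max_left _ _)
            nlinarith [sq_nonneg C₁]
        _ = max (8 * C₁ ^ 2) C₂ * Λ ^ 3 * L / (K * a) := by ring
  · -- distance to `F`
    have hind := meas_ind hA.cost.meas (2 ^ (K + 2))
    have hindb : ∀ x w : ℂ, |if m x w < 2 ^ (K + 2) then (1 : ℝ) else 0| ≤ 1 := by
      intro x w
      split_ifs <;> simp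
    have hind0 : ∀ x w : ℂ, 0 ≤ if m x w < 2 ^ (K + 2) then (1 : ℝ) else 0 := by
      intro x w
      split_ifs <;> simp
    have h1 : ∫ x in P.Ω, av (fun w => |Ml (XG P κ a (cutG K F m) x) δ x w - F x w|) ≤
        ∫ x in P.Ω, av (fun w => C₂ * om P F δ x w +
          1 * if m x w < 2 ^ (K + 2) then (1 : ℝ) else 0) := by
      refine int_mono P (C := C₂ * 4 + 1 * 1)
        (H := fun x w => C₂ * om P F δ x w +
          1 * if m x w < 2 ^ (K + 2) then (1 : ℝ) else 0) ?_ ?_ ?_ ?_ ?_
      · exact (hom.const_mul _).add (hind.const_mul _)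
      · intro x w
        have h2 := hindb x w
        rw [abs_of_nonneg (hind0 x w)] at h2
        rw [abs_of_nonneg (add_nonneg (mul_nonneg hC₂.le (homb x w).1)
          (mul_nonneg zero_le_one (hind0 x w)))]
        exact add_le_add (mul_le_mul_of_nonneg_left (homb x w).2 hC₂.le)
          (mul_le_mul_of_nonneg_left h2 zero_le_one)
      · intro x w
        exact add_nonneg (mul_nonneg hC₂.le (homb x w).1) (mul_nonneg zero_le_one (hind0 x w))
      · intro x _ w _
        exact abs_nonneg _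
      · intro x hx w hw
        rw [one_mul]
        exact hAF ι P κ Λ a L δ K F m hA x hx w hw
    refine h1.trans ?_
    rw [int_lin P hom hind homb' hindb (fun x w => (homb x w).1) hind0, one_mul]
    refine add_le_add ?_ (hA.cost.sml K)
    exact mul_le_mul_of_nonneg_right (le_max_right _ _) hI0

end Pool.Agent.H64.EG
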