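import Pool.Agent.H75.ERG.Targets

/-!
# Invariant functions, row LIG: invariance of the extension
-/

set_option autoImplicit false

namespace Pool.Agent.H64.EG

open MeasureTheory Set Metric Filter Topology Pool.Agent.H93.BL
open Pool.Agent.H93.EN (av md rf chi gchi Bd Ml Nl Inv Agr sg VV Chart LS Phi)
open Pool.Agent.H93.EG (InvG Sm gN hN nrm)
open Pool.Agent.H75.ERG

variable {ι : Type} {P : Polygon ι}

/-- the signed distance along a line -/
theorem sg_add (j : ι) (y w : ℂ) (r : ℝ) :
    sg P j (y + (r : ℂ) * w) = sg P j y + r * ip w (P.n j) := by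
  unfold sg
  rw [P.ip_n, ← cr_smul_right, ← cr_add_right]
  congr 1
  ring

/-- points of a segment of a ball -/
theorem seg_ball {x y w : ℂ} {R t : ℝ} (hy : y ∈ ball x R) (hy' : y + (t : ℂ) * w ∈ ball x R)
    {r : ℝ} (hr0 : 0 ≤ r) (hrt : r ≤ t) : y + (r : ℂ) * w ∈ ball x R := by
  rcases eq_or_lt_of_le (hr0.trans hrt) with h | h
  · have h1 : r = 0 := by linarith
    rw [h1]
    simpa using hy
  · have hc := convex_ball x R
    have h2 := hc hy hy' (a := 1 - r / t) (b := r / t)
      (by rw [sub_nonneg]; exact (div_le_one h).2 hrt) (div_nonneg hr0 h.le) (by ring)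
    have h3 : (1 - r / t) • y + (r / t) • (y + (t : ℂ) * w) = y + (r : ℂ) * w := by
      have h4 : (t : ℂ) ≠ 0 := by exact_mod_cast h.ne'
      simp only [Complex.real_smul]
      push_cast
      field_simp
      ring
    rw [h3] at h2
    exact h2

theorem li_main (F : ℂ → ℂ → ℝ) (hF : InvG P F) (x : ℂ) (R : ℝ) (j : ι)
    (hC : Chart P x R (some j))
    (hsgaff : ∀ y, sg P j (P.aff j y) = -sg P j y)
    (hball : ∀ y ∈ ball x R, sg P j y ≤ 0 → P.aff j y ∈ ball x R)
    (w : ℂ) (hw : ‖w‖ = 1) (t : ℝ) (ht : 0 ≤ t) (y : ℂ) (hy : y ∈ ball x R)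
    (hy' : y + (t : ℂ) * w ∈ ball x R) (hs : sg P j y ≠ 0)
    (hs' : sg P j (y + (t : ℂ) * w) ≠ 0) :
    Phi P F (some j) (y + (t : ℂ) * w) w = Phi P F (some j) y w := by
  obtain ⟨-, hΩ, hseg⟩ := hC
  have hin : ∀ r : ℝ, 0 ≤ r → r ≤ t → y + (r : ℂ) * w ∈ ball x R :=
    fun r h1 h2 => seg_ball hy hy' h1 h2
  have hrw : ‖P.refl j w‖ = 1 := by rw [P.norm_refl, hw]
  have hup : ∀ r : ℝ, 0 ≤ r → r ≤ t → 0 < sg P j (y + (r : ℂ) * w) →
      y + (r : ℂ) * w ∈ P.Ω := fun r h1 h2 h3 => hΩ _ (hin r h1 h2) h3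
  have hdn : ∀ r : ℝ, 0 ≤ r → r ≤ t → sg P j (y + (r : ℂ) * w) < 0 →
      P.aff j (y + (r : ℂ) * w) ∈ P.Ω := by
    intro r h1 h2 h3
    refine hΩ _ (hball _ (hin r h1 h2) h3.le) ?_
    rw [hsgaff]
    linarith
  have hlin : ∀ r : ℝ, sg P j (y + (r : ℂ) * w) = sg P j y + r * ip w (P.n j) :=
    fun r => sg_add j y w r
  have hlt := hlin t
  unfold Phi
  simp only
  rcases lt_or_gt_of_ne hs with h0 | h0
  · rcases lt_or_gt_of_ne hs' with h1 | h1
    · -- both below the line
      rw [if_neg (not_lt.2 h1.le), if_neg (not_lt.2 h0.le), P.aff_add_smul]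
      refine hF.flow _ _ t hrw ht fun r hr => ?_
      rw [← P.aff_add_smul]
      refine hdn r hr.1 hr.2 ?_
      rw [hlin]
      rw [hlt] at h1
      rcases le_or_gt (ip w (P.n j)) 0 with h | h
      · nlinarith [hr.1]
      · nlinarith [hr.2]
    · -- from below to above
      rw [if_pos h1, if_neg (not_lt.2 h0.le)]
      have ha : 0 < ip w (P.n j) := by
        rw [hlt] at h1
        by_contra h
        push Not at h
        nlinarith
      obtain ⟨t₁, ht₁⟩ : ∃ t₁ : ℝ, t₁ = -sg P j y / ip w (P.n j) := ⟨_, rfl⟩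
      have ht₁0 : 0 < t₁ := by rw [ht₁]; exact div_pos (by linarith) ha
      have ht₁m : t₁ * ip w (P.n j) = -sg P j y := by rw [ht₁, div_mul_cancel₀ _ ha.ne']
      have ht₁t : t₁ < t := by
        rw [hlt] at h1
        by_contra h
        push Not at h
        nlinarith
      have hz0 : sg P j (y + (t₁ : ℂ) * w) = 0 := by rw [hlin, ht₁m]; ring
      have hz := hseg _ (hin t₁ ht₁0.le ht₁t.le) hz0
      have haz : P.aff j (y + (t₁ : ℂ) * w) = y + (t₁ : ℂ) * w :=
        P.aff_of_mem_segment j _ (openSegment_subset_segment _ _ _ hz)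
      rw [P.aff_add_smul] at haz
      have hc := hF.cross j (P.aff j y) (P.refl j w) t₁ (t - t₁) hrw ht₁0 (by linarith)
        (by rw [P.ip_refl_n]; linarith)
        (by
          intro r hr
          rw [← P.aff_add_smul]
          refine hdn r hr.1 (by linarith [hr.2]) ?_
          rw [hlin]
          nlinarith [hr.2])
        (by rw [haz]; exact hz)
        (by
          intro r hr
          rw [haz, P.refl_refl]
          have h2 : y + (t₁ : ℂ) * w + (r : ℂ) * w = y + ((t₁ + r : ℝ) : ℂ) * w := by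
            push_cast
            ring
          rw [h2]
          refine hup _ (by linarith [hr.1]) (by linarith [hr.2]) ?_
          rw [hlin]
          nlinarith [hr.1])
      rw [haz, P.refl_refl] at hc
      rw [← hc]
      congr 1
      push_cast
      ring
  · rcases lt_or_gt_of_ne hs' with h1 | h1
    · -- from above to below
      rw [if_neg (not_lt.2 h1.le), if_pos h0]
      have ha : ip w (P.n j) < 0 := by
        rw [hlt] at h1
        by_contra h
        push Not at h
        nlinarith
      obtain ⟨t₁, ht₁⟩ : ∃ t₁ : ℝ, t₁ = -sg P j y / ip w (P.n j) := ⟨_, rfl⟩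
      have ht₁0 : 0 < t₁ := by rw [ht₁]; exact div_pos_of_neg_of_neg (by linarith) ha
      have ht₁m : t₁ * ip w (P.n j) = -sg P j y := by rw [ht₁, div_mul_cancel₀ _ ha.ne]
      have ht₁t : t₁ < t := by
        rw [hlt] at h1
        by_contra h
        push Not at h
        nlinarith
      have hz0 : sg P j (y + (t₁ : ℂ) * w) = 0 := by rw [hlin, ht₁m]; ring
      have hz := hseg _ (hin t₁ ht₁0.le ht₁t.le) hz0
      have haz : P.aff j (y + (t₁ : ℂ) * w) = y + (t₁ : ℂ) * w :=
        P.aff_of_mem_segment j _ (openSegment_subset_segment _ _ _ hz)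
      have hshift : ∀ r : ℝ, y + (t₁ : ℂ) * w + (r : ℂ) * P.refl j w =
          P.aff j (y + ((t₁ + r : ℝ) : ℂ) * w) := by
        intro r
        have h2 : y + ((t₁ + r : ℝ) : ℂ) * w = (y + (t₁ : ℂ) * w) + (r : ℂ) * w := by
          push_cast
          ring
        rw [h2, P.aff_add_smul, haz]
      have hc := hF.cross j y w t₁ (t - t₁) hw ht₁0 (by linarith) ha
        (by
          intro r hr
          refine hup r hr.1 (by linarith [hr.2]) ?_
          rw [hlin]
          nlinarith [hr.2])
        hz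
        (by
          intro r hr
          rw [hshift]
          refine hdn _ (by linarith [hr.1]) (by linarith [hr.2]) ?_
          rw [hlin]
          nlinarith [hr.1])
      rw [hshift] at hc
      rw [← hc]
      congr 3
      ring_nf
    · -- both above the line
      rw [if_pos h1, if_pos h0]
      refine hF.flow _ _ t hw ht fun r hr => ?_
      refine hup r hr.1 hr.2 ?_
      rw [hlin]
      rw [hlt] at h1
      rcases le_or_gt (ip w (P.n j)) 0 with h | h
      · nlinarith [hr.2]
      · nlinarith [hr.1]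

theorem lig (h1 : Pool.Agent.H93.EN.T_CHT) : T_LIG := by
  intro ι P F hF x R τ hC w hw t
  obtain ⟨-, hdist, -, -, hnull⟩ := h1 ι P
  cases τ with
  | none =>
    refine ae_of_all _ fun y hy hy' => ?_
    have hC' : ball x R ⊆ P.Ω := hC
    change F (y + (t : ℂ) * w) w = F y w
    rcases le_total 0 t with ht | ht
    · exact hF.flow y w t hw ht fun r hr => hC' (seg_ball hy hy' hr.1 hr.2)
    · have hback : y + (t : ℂ) * w + ((-t : ℝ) : ℂ) * w = y := by
        push_cast
        ring
      have h2 := hF.flow (y + (t : ℂ) * w) w (-t) hw (by linarith) fun r hr =>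
        hC' (seg_ball hy' (by rw [hback]; exact hy) hr.1 hr.2)
      rw [hback] at h2
      exact h2.symm
  | some j =>
    have hx0 : 0 ≤ sg P j x := hC.1
    have hsgaff : ∀ y, sg P j (P.aff j y) = -sg P j y := fun y => (hdist j y y).1
    have hball : ∀ y ∈ ball x R, sg P j y ≤ 0 → P.aff j y ∈ ball x R := by
      intro y hy hs
      exact lt_of_le_of_lt ((hdist j y x).2.2 hx0 hs) hy
    have hn1 : ∀ᵐ y : ℂ, sg P j y ≠ 0 := by
      rw [ae_iff]
      simpa using hnull j
    have hn2 : ∀ᵐ y : ℂ, sg P j (y + (t : ℂ) * w) ≠ 0 :=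
      (measurePreserving_add_right (volume : Measure ℂ) ((t : ℂ) * w)).quasiMeasurePreserving.ae
        hn1
    filter_upwards [hn1, hn2] with y hs hs' hy hy'
    rcases le_total 0 t with ht | ht
    · exact li_main F hF x R j hC hsgaff hball w hw t ht y hy hy' hs hs'
    · have hback : y + (t : ℂ) * w + ((-t : ℝ) : ℂ) * w = y := by
        push_cast
        ring
      have h2 := li_main F hF x R j hC hsgaff hball w hw (-t) (by linarith) (y + (t : ℂ) * w) hy'
        (by rw [hback]; exact hy) hs' (by rw [hback]; exact hs)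
      rw [hback] at h2
      exact h2.symm

end Pool.Agent.H64.EG
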